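import Mathlib

/-!
# Two-element exchanges: the abstract theorem (helper47)
-/

set_option autoImplicit false

namespace Pool.Agent.H47Two

open Finset

variable {E K : Type*} [Fintype E] [DecidableEq E] [Field K]

/-- The sum over the sets which contain `D` and avoid `W`. -/
def Sm (f : Finset E → K) (D W : Finset E) : K :=
  ∑ A ∈ univ.filter (fun A => D ⊆ A ∧ Disjoint A W), f A

theorem sm_insert (f : Finset E → K) (D W : Finset E) (e : E) :
    Sm f D (insert e W) = Sm f D W - Sm f (insert e D) W := by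
  unfold Sm
  rw [eq_sub_iff_add_eq, ← Finset.sum_union]
  · congr 1
    ext A
    simp only [mem_union, mem_filter, mem_univ, true_and, disjoint_insert_right, insert_subset_iff]
    tauto
  · rw [Finset.disjoint_left]
    intro A h1 h2
    simp only [mem_filter, mem_univ, true_and, disjoint_insert_right, insert_subset_iff] at h1 h2
    exact h1.2.1 h2.1.1

/-- Constant sums. -/
theorem sm_const (f : Finset E → K) (C Z : Finset E)
    (h : ∀ D, C ⊂ D → D ⊆ C ∪ Z → Sm f D ∅ = 0) (hCZ : Disjoint C Z) :
    ∀ W ⊆ Z, Sm f C W = Sm f C ∅ := by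
  have h1 : ∀ W : Finset E, W ⊆ Z → ∀ D, C ⊂ D → D ⊆ C ∪ Z → Sm f D W = 0 := by
    intro W
    induction W using Finset.induction_on with
    | empty => exact fun _ D h2 h3 => h D h2 h3
    | insert e W he ih =>
      intro hW D h2 h3
      have hW' := (insert_subset_iff.1 hW)
      rw [sm_insert, ih hW'.2 D h2 h3, ih hW'.2 (insert e D)
        (h2.trans_subset (subset_insert _ _))
        (insert_subset (mem_union_right _ hW'.1) h3), sub_zero]
  intro W
  induction W using Finset.induction_on with
  | empty => exact fun _ => rfl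
  | insert e W he ih =>
    intro hW
    have hW' := (insert_subset_iff.1 hW)
    have heC : e ∉ C := fun h' => (Finset.disjoint_left.1 hCZ h') hW'.1
    rw [sm_insert, ih hW'.2, h1 W hW'.2 (insert e C) (ssubset_insert heC)
      (insert_subset (mem_union_right _ hW'.1) subset_union_left), sub_zero]

/-- Complement. -/
theorem sm_compl (f : Finset E → K) (r : ℕ) (hf : ∀ A, f A ≠ 0 → A.card = r) (C₀ : Finset E)
    (h : ∀ D : Finset E, C₀ ⊆ D → D.card < r → Sm f D ∅ = 0) :
    ∀ W D : Finset E, C₀ ⊆ D → Disjoint D W → (D.card + W.card < r → Sm f D W = 0) ∧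
      (D.card + W.card = r → Sm f D W = (-1) ^ W.card * f (D ∪ W)) := by
  intro W
  induction W using Finset.induction_on with
  | empty =>
    intro D hD0 _
    refine ⟨fun h1 => h D hD0 (by simpa using h1), fun h1 => ?_⟩
    rw [card_empty, pow_zero, one_mul, union_empty]
    unfold Sm
    refine Finset.sum_eq_single_of_mem D (by simp) fun A hA hne => ?_
    by_contra h2
    have h3 := hf A h2
    simp only [mem_filter, mem_univ, true_and] at hA
    exact hne (eq_of_subset_of_card_le hA.1 (by simp at h1; omega)).symm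
  | insert e W he ih =>
    intro D hD0 hD
    have h1 := disjoint_insert_right.1 hD
    have h2 : Disjoint (insert e D) W := disjoint_insert_left.2 ⟨he, h1.2⟩
    have h0 : C₀ ⊆ insert e D := hD0.trans (subset_insert _ _)
    rw [card_insert_of_notMem he]
    refine ⟨fun h3 => ?_, fun h3 => ?_⟩
    · rw [sm_insert, (ih D hD0 h1.2).1 (by omega), (ih (insert e D) h0 h2).1
        (by rw [card_insert_of_notMem h1.1]; omega), sub_zero]
    · rw [sm_insert, (ih D hD0 h1.2).1 (by omega), (ih (insert e D) h0 h2).2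
        (by rw [card_insert_of_notMem h1.1]; omega), zero_sub, pow_succ]
      have : insert e D ∪ W = D ∪ insert e W := by
        rw [insert_union, union_insert]
      rw [this]
      ring

/-- An independent set with `r - 1` elements spans no base. -/
theorem no_base {N : Matroid E} {r : ℕ} (hN : ∀ B, N.IsBase B → B.ncard = r) {G A : Set E}
    (hG : N.Indep G) (hGc : G.ncard + 1 = r) (hA : A ⊆ N.closure G) : ¬ N.IsBase A := by
  intro hb
  have h1 : N.closure G = N.E := by
    refine (N.closure_subset_ground G).antisymm ?_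
    rw [← hb.closure_eq]
    exact N.closure_subset_closure_of_subset_closure hA
  have h2 : N.IsBase G := (Matroid.isBase_iff_indep_closure_eq).2 ⟨hG, h1⟩
  have := hN G h2
  omega

/-- The exchange which adds a given element. -/
theorem rev_exchange {N : Matroid E} {A A' : Set E} (hA : N.IsBase A) (hA' : N.IsBase A') {d : E}
    (hd : d ∈ A' \ A) : ∃ a ∈ A \ A', N.IsBase (insert d (A \ {a})) := by
  have hI : N.Indep (insert d (A ∩ A')) := hA'.indep.subset (by
    rintro x (rfl | hx)
    · exact hd.1
    · exact hx.2)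
  obtain ⟨B, hB, hIB, hBs⟩ := hI.exists_isBase_subset_union_isBase hA
  have h1 : B \ A = {d} := by
    ext x
    constructor
    · rintro ⟨hx, hxA⟩
      rcases hBs hx with (rfl | h) | h
      · rfl
      · exact absurd h.1 hxA
      · exact absurd h hxA
    · rintro rfl
      exact ⟨hIB (Set.mem_insert _ _), hd.2⟩
  obtain ⟨f, hf, hAf⟩ := hB.eq_exchange_of_sdiff_eq_singleton hA h1
  refine ⟨f, ⟨hf.1, fun h => hf.2 (hIB (Or.inr ⟨hf.1, h⟩))⟩, ?_⟩
  have h2 : insert d (A \ {f}) = B := by
    ext x
    have hdB : d ∈ B := hIB (Set.mem_insert _ _)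
    have hfB := hf.2
    rw [hAf]
    simp only [Set.mem_insert_iff, Set.mem_sdiff, Set.mem_singleton_iff]
    constructor
    · rintro (rfl | ⟨⟨rfl | h, _⟩, h3⟩)
      · exact hdB
      · exact absurd rfl h3
      · exact h
    · intro hx
      by_cases hxd : x = d
      · exact Or.inl hxd
      · exact Or.inr ⟨⟨Or.inr hx, hxd⟩, fun h => hfB (h ▸ hx)⟩
  rw [h2]
  exact hB

/-- **The abstract theorem.** -/
theorem core (N₁ N₂ : Matroid E) (hE : N₁.E = Set.univ) (hE' : N₂.E = Set.univ) (r : ℕ)
    (hN₁ : ∀ B, N₁.IsBase B → B.ncard = r) (hN₂ : ∀ B, N₂.IsBase B → B.ncard = r)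
    (F : Finset E → K)
    (hF : ∀ A : Finset E, F A ≠ 0 ↔ N₁.IsBase (A : Set E) ∧ N₂.IsBase (A : Set E))
    (htot : ∀ C : Finset E, C.card < r → ∑ A ∈ univ.filter (fun A => C ⊆ A), F A = 0)
    (P : Finset E → Prop) (C₀ : Finset E)
    (hP : ∀ A A', C₀ ⊆ A → C₀ ⊆ A' → P A → F A ≠ 0 → F A' ≠ 0 → r ≤ (A ∩ A').card + 2 → P A')
    (S : Finset E) (hS0 : C₀ ⊆ S) (hS : P S) (hFS : F S ≠ 0) :
    ∃ A, C₀ ⊆ A ∧ Disjoint A (S \ C₀) ∧ P A ∧ F A ≠ 0 := by
  classical
  have hcard : ∀ A, F A ≠ 0 → A.card = r := by
    intro A hA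
    have := hN₁ _ ((hF A).1 hA).1
    rwa [Set.ncard_coe_finset] at this
  let f : Finset E → K := fun A => if P A then F A else 0
  have hf : ∀ A, f A ≠ 0 → P A ∧ F A ≠ 0 := by
    intro A hA
    by_cases h : P A
    · exact ⟨h, by simpa [f, h] using hA⟩
    · exact absurd (by simp [f, h]) hA
  have hzero : ∀ n : ℕ, ∀ C : Finset E, C₀ ⊆ C → C.card + n = r → 0 < n → Sm f C ∅ = 0 := by
    intro n
    induction n using Nat.strong_induction_on with
    | _ n ih =>
    intro C hC0 hCn hn
    by_cases hall : ∀ A, C ⊆ A → F A ≠ 0 → P A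
    · rw [← htot C (by omega)]
      unfold Sm
      have : (univ.filter fun A : Finset E => C ⊆ A ∧ Disjoint A ∅) =
          univ.filter fun A => C ⊆ A := by
        ext A
        simp
      rw [this]
      refine Finset.sum_congr rfl fun A hA => ?_
      simp only [mem_filter, mem_univ, true_and] at hA
      by_cases h : F A = 0
      · simp [f, h]
      · simp [f, hall A hA h]
    by_cases hnone : ∀ A, C ⊆ A → F A ≠ 0 → ¬ P A
    · unfold Sm
      refine Finset.sum_eq_zero fun A hA => ?_
      simp only [mem_filter, mem_univ, true_and] at hA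
      by_contra h
      obtain ⟨h1, h2⟩ := hf A h
      exact hnone A hA.1 h2 h1
    push Not at hall hnone
    obtain ⟨A'₀, hA'₀, hFA'₀, hPA'₀⟩ := hall
    obtain ⟨A₀, hA₀, hFA₀, hPA₀⟩ := hnone
    let Q : Finset (Finset E × Finset E) := univ.filter fun p =>
      (C ⊆ p.1 ∧ F p.1 ≠ 0 ∧ P p.1) ∧ (C ⊆ p.2 ∧ F p.2 ≠ 0 ∧ ¬ P p.2)
    have hQ : Q.Nonempty := ⟨(A₀, A'₀), mem_filter.2 ⟨mem_univ _, ⟨hA₀, hFA₀, hPA₀⟩, hA'₀, hFA'₀,
      hPA'₀⟩⟩
    obtain ⟨⟨A, A'⟩, hAA, hmax⟩ := Finset.exists_max_image Q (fun p => (p.1 ∩ p.2).card) hQ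
    simp only [Q, mem_filter, mem_univ, true_and] at hAA hmax
    obtain ⟨⟨hCA, hFA, hPA⟩, hCA', hFA', hPA'⟩ := hAA
    have hint : (A ∩ A').card + 3 ≤ r := by
      by_contra h
      exact hPA' (hP A A' (hC0.trans hCA) (hC0.trans hCA') hPA hFA hFA' (by omega))
    have hb := (hF A).1 hFA
    have hb' := (hF A').1 hFA'
    have hcA := hcard A hFA
    have hcA' := hcard A' hFA'
    have hd : (A' \ A).Nonempty := by
      rw [← card_pos]
      have := card_sdiff_add_card_inter A' A
      rw [inter_comm] at this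
      omega
    obtain ⟨d, hd⟩ := hd
    obtain ⟨hdA', hdA⟩ := mem_sdiff.1 hd
    have hsd : 3 ≤ (A \ A').card := by
      have := card_sdiff_add_card_inter A A'
      omega
    obtain ⟨a₁, ha₁, hx₁⟩ := rev_exchange hb.1 hb'.1 (show d ∈ (A' : Set E) \ A from
      ⟨by simpa using hdA', by simpa using hdA⟩)
    obtain ⟨a₂, ha₂, hx₂⟩ := rev_exchange hb.2 hb'.2 (show d ∈ (A' : Set E) \ A from
      ⟨by simpa using hdA', by simpa using hdA⟩)
    have ha₁' : a₁ ∈ A \ A' := by simpa using ha₁
    have ha₂' : a₂ ∈ A \ A' := by simpa using ha₂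
    obtain ⟨U, hU1, hU2, hU3⟩ := Finset.exists_subsuperset_card_eq
      (show ({a₁, a₂} : Finset E) ⊆ A \ A' from by
        intro x hx
        rcases mem_insert.1 hx with rfl | hx
        · exact ha₁'
        · rw [mem_singleton.1 hx]; exact ha₂')
      (show ({a₁, a₂} : Finset E).card ≤ 2 from card_le_two) (show 2 ≤ (A \ A').card by omega)
    have hUA : U ⊆ A := hU2.trans sdiff_subset
    have hUA' : Disjoint U A' := Finset.disjoint_left.2 fun x hx => (mem_sdiff.1 (hU2 hx)).2
    let G : Finset E := insert d (A \ U)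
    have hdU : d ∉ A \ U := fun h => hdA (mem_sdiff.1 h).1
    have hGc : G.card + 1 = r := by
      simp only [G]
      rw [card_insert_of_notMem hdU, card_sdiff_of_subset hUA, hU3, hcA]
      omega
    have hG1 : N₁.Indep (G : Set E) := by
      refine hx₁.indep.subset ?_
      intro x hx
      simp only [G, coe_insert, coe_sdiff, Set.mem_insert_iff, Set.mem_sdiff, mem_coe] at hx
      rcases hx with rfl | ⟨h1, h2⟩
      · exact Set.mem_insert _ _
      · refine Set.mem_insert_of_mem _ ⟨h1, fun h3 => h2 ?_⟩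
        rw [Set.mem_singleton_iff.1 h3]
        exact hU1 (by simp)
    have hG2 : N₂.Indep (G : Set E) := by
      refine hx₂.indep.subset ?_
      intro x hx
      simp only [G, coe_insert, coe_sdiff, Set.mem_insert_iff, Set.mem_sdiff, mem_coe] at hx
      rcases hx with rfl | ⟨h1, h2⟩
      · exact Set.mem_insert _ _
      · refine Set.mem_insert_of_mem _ ⟨h1, fun h3 => h2 ?_⟩
        rw [Set.mem_singleton_iff.1 h3]
        exact hU1 (by simp)
    have hGn : (G : Set E).ncard + 1 = r := by rw [Set.ncard_coe_finset]; exact hGc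
    have hCG : C ⊆ G := by
      intro x hx
      refine mem_insert_of_mem (mem_sdiff.2 ⟨hCA hx, fun h => ?_⟩)
      exact Finset.disjoint_left.1 hUA' h (hCA' hx)
    -- no common extension
    have hno : ∀ e, e ∉ G → F (insert e G) = 0 := by
      intro e he
      by_contra h
      have hsub : A \ U ⊆ A ∩ insert e G := by
        intro x hx
        exact mem_inter.2 ⟨(mem_sdiff.1 hx).1, mem_insert_of_mem (mem_insert_of_mem hx)⟩
      have h1 : r ≤ (A ∩ insert e G).card + 2 := by
        have := card_le_card hsub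
        rw [card_sdiff_of_subset hUA, hU3, hcA] at this
        omega
      have h2 : P (insert e G) := hP A _ (hC0.trans hCA)
        (hC0.trans (hCG.trans (subset_insert _ _))) hPA hFA h h1
      have h3 := hmax (insert e G, A') ⟨⟨hCG.trans (subset_insert _ _), h, h2⟩, hCA', hFA', hPA'⟩
      have h4 : insert d (A ∩ A') ⊆ insert e G ∩ A' := by
        intro x hx
        rcases mem_insert.1 hx with rfl | hx
        · exact mem_inter.2 ⟨mem_insert_of_mem (mem_insert_self _ _), hdA'⟩
        · obtain ⟨h5, h6⟩ := mem_inter.1 hx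
          refine mem_inter.2 ⟨mem_insert_of_mem (mem_insert_of_mem (mem_sdiff.2 ⟨h5, fun h7 => ?_⟩)), h6⟩
          exact Finset.disjoint_left.1 hUA' h7 h6
      have h5 := card_le_card h4
      rw [card_insert_of_notMem (fun h => hdA (mem_inter.1 h).1)] at h5
      simp only at h3
      omega
    -- the set `Z`
    let Z : Finset E := univ.filter fun e => e ∈ N₁.closure (G : Set E) ∧ e ∉ C
    have hCcl : (C : Set E) ⊆ N₁.closure (G : Set E) :=
      (coe_subset.2 hCG).trans (N₁.subset_closure _ hG1.subset_ground)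
    have hCcl' : (C : Set E) ⊆ N₂.closure (G : Set E) :=
      (coe_subset.2 hCG).trans (N₂.subset_closure _ hG2.subset_ground)
    have hCZ : Disjoint C Z := Finset.disjoint_left.2 fun x hx h => (mem_filter.1 h).2.2 hx
    have key := sm_const f C Z (fun D hD1 hD2 => by
      by_cases hDr : D.card < r
      · exact ih (r - D.card) (by have := card_lt_card hD1; omega) D (hC0.trans hD1.subset)
          (by omega) (by omega)
      · unfold Sm
        refine Finset.sum_eq_zero fun B hB => ?_
        simp only [mem_filter, mem_univ, true_and] at hB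
        by_contra h
        obtain ⟨h1, h2⟩ := hf B h
        have h3 : D = B := eq_of_subset_of_card_le hB.1 (by rw [hcard B h2]; omega)
        refine no_base hN₁ hG1 hGn ?_ ((hF B).1 h2).1
        rw [← h3]
        intro x hx
        rcases mem_union.1 (hD2 hx) with h4 | h4
        · exact hCcl h4
        · exact (mem_filter.1 h4).2.1) hCZ Z subset_rfl
    rw [← key]
    unfold Sm
    refine Finset.sum_eq_zero fun B hB => ?_
    simp only [mem_filter, mem_univ, true_and] at hB
    by_contra h
    obtain ⟨h1, h2⟩ := hf B h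
    refine no_base hN₂ hG2 hGn ?_ ((hF B).1 h2).2
    intro x hx
    by_cases hxC : x ∈ C
    · exact hCcl' hxC
    have hxZ : x ∉ Z := Finset.disjoint_left.1 hB.2 hx
    have hx1 : x ∉ N₁.closure (G : Set E) := fun h' => hxZ (mem_filter.2 ⟨mem_univ _, h', hxC⟩)
    by_contra hx2
    have hxG : x ∉ G := fun h' => hx1 (N₁.subset_closure _ hG1.subset_ground h')
    have i1 := ((hG1.notMem_closure_iff (by rw [hE]; trivial)).1 hx1).1
    have i2 := ((hG2.notMem_closure_iff (by rw [hE']; trivial)).1 hx2).1
    have base : ∀ {N : Matroid E}, (∀ B, N.IsBase B → B.ncard = r) →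
        N.Indep (insert x (G : Set E)) → N.IsBase (insert x (G : Set E)) := by
      intro N hN hi
      obtain ⟨D, hD, hsub⟩ := hi.exists_isBase_superset
      have h3 : (insert x (G : Set E)).ncard = r := by
        rw [Set.ncard_insert_of_notMem (by simpa using hxG)]
        exact hGn
      have h4 := Set.eq_of_subset_of_ncard_le hsub (by rw [hN D hD, h3]) (Set.toFinite D)
      rw [h4]
      exact hD
    have h5 := (hF (insert x G)).2 ⟨by rw [coe_insert]; exact base hN₁ i1,
      by rw [coe_insert]; exact base hN₂ i2⟩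
    exact h5 (hno x hxG)
  -- the complement
  have hSc := hcard S hFS
  have hcc := card_sdiff_add_card_eq_card hS0
  have h1 := (sm_compl f r (fun A hA => hcard A (hf A hA).2) C₀
    (fun D hD0 hD => hzero (r - D.card) D hD0 (by omega) (by omega)) (S \ C₀) C₀ subset_rfl
    disjoint_sdiff).2 (by omega)
  have h2 : Sm f C₀ (S \ C₀) ≠ 0 := by
    rw [h1, union_sdiff_of_subset hS0]
    refine mul_ne_zero (pow_ne_zero _ (by simp)) ?_
    simp only [f, hS, if_true]
    exact hFS
  obtain ⟨A, hA, hfA⟩ := Finset.exists_ne_zero_of_sum_ne_zero h2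
  simp only [mem_filter, mem_univ, true_and] at hA
  obtain ⟨h3, h4⟩ := hf A hfA
  exact ⟨A, hA.1, hA.2, h3, h4⟩

end Pool.Agent.H47Two
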