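import Pool.Agent.H68Rg.OfRG

/-!
# All link sums of the products of complementary minors vanish (helper47)
-/

set_option autoImplicit false

namespace Pool.Agent.H47Two

open Finset Pool.Agent.H68Rg

variable {r : ℕ} {K : Type*} [Field K]

/-- The sum of the products of complementary minors over the sets which contain a given set of less
than `r` elements vanishes. -/
theorem htot (E : Fin r ⊕ Fin r → Fin r → K) (C : Finset (Fin r ⊕ Fin r)) (hC : C.card < r) :
    ∑ A ∈ univ.filter (fun A => C ⊆ A), (mat E A).det = 0 := by
  classical
  let m : Fin r ⊕ Fin r → (Fin r ⊕ Fin r → K) := fun a => Sum.elim (E a) 0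
  let m' : Fin r ⊕ Fin r → (Fin r ⊕ Fin r → K) := fun a => if a ∈ C then 0 else Sum.elim 0 (E a)
  have h1 := (Matrix.detRowAlternating (R := K) (n := Fin r ⊕ Fin r)).toMultilinearMap.map_add_univ
    m m'
  have h2 : ∀ s : Finset (Fin r ⊕ Fin r),
      (Matrix.of (s.piecewise m m')).det = if C ⊆ s then (mat E s).det else 0 := by
    intro s
    by_cases hs : C ⊆ s
    · rw [if_pos hs, ← Matrix.det_transpose]
      congr 1
      ext x a
      simp only [Matrix.transpose_apply, Matrix.of_apply, Finset.piecewise, mat]
      by_cases ha : a ∈ s
      · simp only [ha, if_true, m]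
        rcases x with i | i <;> rfl
      · have ha' : a ∉ C := fun h => ha (hs h)
        simp only [ha, ha', if_false, m']
        rcases x with i | i <;> rfl
    · rw [if_neg hs]
      obtain ⟨a, haC, has⟩ := Finset.not_subset.1 hs
      refine Matrix.det_eq_zero_of_row_eq_zero a fun x => ?_
      simp only [Matrix.of_apply, Finset.piecewise, has, if_false, m', haC, if_true]
      rfl
  have h3 : (Matrix.of (m + m')).det = 0 := by
    have h4 : Matrix.of (m + m') = (mat E C).transpose * Matrix.fromBlocks 1 0 1 1 := by
      ext a x
      by_cases ha : a ∈ C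
      · rcases x with i | i
        · simp [Matrix.mul_apply, mat, m, m', ha, Matrix.fromBlocks, Matrix.one_apply]
        · simp [Matrix.mul_apply, mat, m, m', ha, Matrix.fromBlocks, Matrix.one_apply]
      · rcases x with i | i
        · simp [Matrix.mul_apply, mat, m, m', ha, Matrix.fromBlocks, Matrix.one_apply]
        · simp [Matrix.mul_apply, mat, m, m', ha, Matrix.fromBlocks, Matrix.one_apply]
    rw [h4, Matrix.det_mul, Matrix.det_transpose]
    have h5 : (mat E C).det = 0 := by
      by_contra h
      have := (card_of_det h).1
      omega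
    rw [h5, zero_mul]
  have h6 : (Matrix.of (m + m')).det = ∑ s : Finset (Fin r ⊕ Fin r),
      (Matrix.of (s.piecewise m m')).det := h1
  rw [h3] at h6
  rw [Finset.sum_filter]
  exact (Finset.sum_congr rfl fun s _ => (h2 s).symm).trans h6.symm

end Pool.Agent.H47Two
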