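import Pool.Agent.H47Two.Core
import Pool.Agent.H47Two.Tot

/-!
# Exchanges of at most two elements between bases of a matroid over an arbitrary field (helper47)
-/

set_option autoImplicit false

namespace Pool.Agent.H47Two

open Finset

/-- The pair `Q` arises from the pair `P` by exchanging at most two elements of the first set with
the same number of elements of the second set, and both sets of `Q` are bases. -/
def TwoExchange {α : Type*} (M : Matroid α) (P Q : Set α × Set α) : Prop :=
  (∃ X ⊆ P.1, ∃ Y ⊆ P.2, X.encard = Y.encard ∧ X.encard ≤ 2 ∧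
    Q.1 = (P.1 \ X) ∪ Y ∧ Q.2 = (P.2 \ Y) ∪ X) ∧ M.IsBase Q.1 ∧ M.IsBase Q.2

/-- Two bases of a represented matroid give vectors in `K ^ r`. -/
theorem exists_vectors {α K V : Type*} [Field K] [AddCommGroup V] [Module K V]
    (M : Matroid α) (φ : α → V) (hφ : ∀ X ⊆ M.E, M.Indep X ↔ LinearIndepOn K φ X) {r : ℕ}
    (b b' : Fin r → α) (hb : Function.Injective b) (hb' : Function.Injective b')
    (hB : M.IsBase (Set.range b)) (hB' : M.IsBase (Set.range b')) :
    ∃ E : Fin r ⊕ Fin r → Fin r → K,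
      (∀ A : Set (Fin r ⊕ Fin r), LinearIndepOn K E A ↔ LinearIndepOn K (φ ∘ Sum.elim b b') A) ∧
      (LinearIndependent K fun i : Fin r => E (Sum.inl i)) ∧
      (LinearIndependent K fun i : Fin r => E (Sum.inr i)) := by
  set g : Fin r ⊕ Fin r → α := Sum.elim b b' with hg
  have hgE : ∀ a, g a ∈ M.E := by
    rintro (i | i)
    · exact hB.subset_ground ⟨i, rfl⟩
    · exact hB'.subset_ground ⟨i, rfl⟩
  have l1 : LinearIndependent K (φ ∘ b) :=
    (linearIndepOn_range_iff hb φ).1 ((hφ _ hB.subset_ground).1 hB.indep)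
  have l2 : LinearIndependent K (φ ∘ b') :=
    (linearIndepOn_range_iff hb' φ).1 ((hφ _ hB'.subset_ground).1 hB'.indep)
  have hsp : ∀ a, φ (g a) ∈ Submodule.span K (Set.range (φ ∘ b)) := by
    intro a
    by_cases ha : g a ∈ Set.range b
    · obtain ⟨i, hi⟩ := ha
      rw [← hi]
      exact Submodule.subset_span ⟨i, rfl⟩
    · by_contra hc
      have h3 : ¬ M.Indep (insert (g a) (Set.range b)) := by
        intro h4
        have h5 := hB.eq_of_subset_indep h4 (Set.subset_insert _ _)
        exact ha (h5 ▸ Set.mem_insert _ _)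
      apply h3
      rw [hφ _ (Set.insert_subset (hgE a) hB.subset_ground)]
      have h4 := (hφ _ hB.subset_ground).1 hB.indep
      refine h4.insert ?_
      rwa [← Set.range_comp]
  let β := Module.Basis.span l1
  let E : Fin r ⊕ Fin r → Fin r → K := fun a => β.equivFun ⟨φ (g a), hsp a⟩
  have key : ∀ A : Set (Fin r ⊕ Fin r), LinearIndepOn K E A ↔ LinearIndepOn K (φ ∘ g) A := by
    intro A
    constructor
    · intro hA
      have h3 : LinearIndepOn K (fun a => (⟨φ (g a), hsp a⟩ :
          Submodule.span K (Set.range (φ ∘ b)))) A :=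
        LinearIndependent.of_comp β.equivFun.toLinearMap hA
      exact LinearIndependent.map' h3 (Submodule.subtype _) (Submodule.ker_subtype _)
    · intro hA
      have h3 : LinearIndepOn K (fun a => (⟨φ (g a), hsp a⟩ :
          Submodule.span K (Set.range (φ ∘ b)))) A :=
        LinearIndependent.of_comp (Submodule.subtype _) hA
      exact LinearIndependent.map' h3 β.equivFun.toLinearMap β.equivFun.ker
  refine ⟨E, key, ?_, ?_⟩
  · have h3 : LinearIndependent K (fun i : Fin r => (⟨φ (g (Sum.inl i)), hsp _⟩ :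
        Submodule.span K (Set.range (φ ∘ b)))) :=
      LinearIndependent.of_comp (Submodule.subtype _) l1
    exact h3.map' β.equivFun.toLinearMap β.equivFun.ker
  · have h3 : LinearIndependent K (fun i : Fin r => (⟨φ (g (Sum.inr i)), hsp _⟩ :
        Submodule.span K (Set.range (φ ∘ b)))) :=
      LinearIndependent.of_comp (Submodule.subtype _) l2
    exact h3.map' β.equivFun.toLinearMap β.equivFun.ker

/-- The determinant does not vanish if both sets of vectors are independent. -/
theorem det_ne_zero {r : ℕ} {K : Type*} [Field K] {E : Fin r ⊕ Fin r → Fin r → K}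
    {A : Finset (Fin r ⊕ Fin r)} (h1 : LinearIndepOn K E (A : Set (Fin r ⊕ Fin r)))
    (h2 : LinearIndepOn K E ((Aᶜ : Finset (Fin r ⊕ Fin r)) : Set (Fin r ⊕ Fin r))) :
    (H68Rg.mat E A).det ≠ 0 := by
  intro h
  obtain ⟨v, hv, hv0⟩ := Matrix.exists_mulVec_eq_zero_iff.2 h
  apply hv
  have e1 : ∑ a ∈ A, v a • E a = 0 := by
    ext i
    have := congrFun hv0 (Sum.inl i)
    simp only [Matrix.mulVec, dotProduct, H68Rg.mat, Matrix.of_apply, Sum.elim_inl,
      Pi.zero_apply, ite_mul, zero_mul] at this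
    rw [← Finset.sum_filter] at this
    simp only [Finset.sum_apply, Pi.smul_apply, smul_eq_mul, Pi.zero_apply]
    rw [← this]
    refine Finset.sum_congr (by ext; simp) fun a _ => mul_comm _ _
  have e2 : ∑ a ∈ Aᶜ, v a • E a = 0 := by
    ext i
    have := congrFun hv0 (Sum.inr i)
    simp only [Matrix.mulVec, dotProduct, H68Rg.mat, Matrix.of_apply, Sum.elim_inr,
      Pi.zero_apply, ite_mul, zero_mul] at this
    rw [Finset.sum_ite, Finset.sum_const_zero, zero_add] at this
    simp only [Finset.sum_apply, Pi.smul_apply, smul_eq_mul, Pi.zero_apply]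
    rw [← this]
    refine Finset.sum_congr (by ext; simp) fun a _ => mul_comm _ _
  have f1 := (linearIndepOn_finset_iff.1 h1) v e1
  have f2 := (linearIndepOn_finset_iff.1 h2) v e2
  ext a
  by_cases ha : a ∈ A
  · exact f1 a ha
  · exact f2 a (mem_compl.2 ha)

/-- **Theorem.** -/
theorem two_swap {α K V : Type*} [Field K] [AddCommGroup V] [Module K V]
    (M : Matroid α) (φ : α → V) (hφ : ∀ X ⊆ M.E, M.Indep X ↔ LinearIndepOn K φ X)
    {B B' : Set α} (hB : M.IsBase B) (hB' : M.IsBase B') (hfin : B.Finite) {X : Set α}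
    (hX : X ⊆ B) :
    ∃ Y ⊆ B', Y.ncard = X.ncard ∧
      Relation.ReflTransGen (fun P Q => TwoExchange M P Q ∧ X ⊆ Q.1) (B, B')
        (X ∪ (B' \ Y), (B \ X) ∪ Y) := by
  classical
  set r := B.ncard with hr
  have hfin' : B'.Finite := by
    rw [← Set.encard_lt_top_iff, hB'.encard_eq_encard_of_isBase hB, Set.encard_lt_top_iff]
    exact hfin
  have hr' : B'.ncard = r := hB'.ncard_eq_ncard_of_isBase hB
  obtain ⟨b, hb, hbr⟩ : ∃ b : Fin r → α, Function.Injective b ∧ Set.range b = B := by
    have : Finite B := hfin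
    let e : Fin r ≃ B := (Finite.equivFinOfCardEq (Nat.card_coe_set_eq B)).symm
    exact ⟨fun i => (e i : α), Subtype.val_injective.comp e.injective, by
      rw [show (fun i => (e i : α)) = Subtype.val ∘ e from rfl, Set.range_comp, e.range_eq_univ,
        Set.image_univ, Subtype.range_coe]⟩
  obtain ⟨b', hb', hbr'⟩ : ∃ b' : Fin r → α, Function.Injective b' ∧ Set.range b' = B' := by
    have : Finite B' := hfin'
    let e : Fin r ≃ B' := (Finite.equivFinOfCardEq ((Nat.card_coe_set_eq B').trans hr')).symm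
    exact ⟨fun i => (e i : α), Subtype.val_injective.comp e.injective, by
      rw [show (fun i => (e i : α)) = Subtype.val ∘ e from rfl, Set.range_comp, e.range_eq_univ,
        Set.image_univ, Subtype.range_coe]⟩
  obtain ⟨E, hE, h1, h2⟩ := exists_vectors M φ hφ b b' hb hb' (hbr ▸ hB) (hbr' ▸ hB')
  set g : Fin r ⊕ Fin r → α := Sum.elim b b' with hg
  have hgE : ∀ a, g a ∈ M.E := by
    rintro (i | i)
    · exact hB.subset_ground (hbr ▸ ⟨i, rfl⟩)
    · exact hB'.subset_ground (hbr' ▸ ⟨i, rfl⟩)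
  -- the two halves
  let S : Finset (Fin r ⊕ Fin r) := univ.map ⟨Sum.inl, Sum.inl_injective⟩
  have hSc : S.card = r := by simp [S]
  have gS : g '' (S : Set (Fin r ⊕ Fin r)) = B := by
    rw [← hbr]
    ext x
    simp [S, hg]
  have gSc : g '' ((Sᶜ : Finset (Fin r ⊕ Fin r)) : Set (Fin r ⊕ Fin r)) = B' := by
    rw [← hbr']
    ext x
    simp [S, hg]
  let XS : Finset (Fin r ⊕ Fin r) := S.filter fun a => g a ∈ X
  have hXS : XS ⊆ S := filter_subset _ _
  have hginS : Set.InjOn g (S : Set (Fin r ⊕ Fin r)) := by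
    intro a ha c hc hac
    simp only [S, coe_map, Function.Embedding.coeFn_mk, coe_univ, Set.image_univ,
      Set.mem_range] at ha hc
    obtain ⟨i, rfl⟩ := ha
    obtain ⟨j, rfl⟩ := hc
    exact congrArg _ (hb hac)
  have gXS : g '' (XS : Set (Fin r ⊕ Fin r)) = X := by
    ext x
    constructor
    · rintro ⟨a, ha, rfl⟩
      exact (mem_filter.1 (mem_coe.1 ha)).2
    · intro hx
      have h3 : x ∈ g '' (S : Set (Fin r ⊕ Fin r)) := gS ▸ hX hx
      obtain ⟨a, ha, rfl⟩ := h3
      exact ⟨a, mem_coe.2 (mem_filter.2 ⟨mem_coe.1 ha, hx⟩), rfl⟩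
  have hXc : XS.card = X.ncard := by
    rw [← gXS, (hginS.mono (coe_subset.2 hXS)).ncard_image, Set.ncard_coe_finset]
  let F : Finset (Fin r ⊕ Fin r) → K := fun A => (H68Rg.mat E A).det
  -- the matroids
  let N : Matroid (Fin r ⊕ Fin r) := M.comap g
  have hNE : N.E = Set.univ := by
    ext a
    simp [N, hgE a]
  have hNi : ∀ A : Set (Fin r ⊕ Fin r), N.Indep A ↔ LinearIndepOn K E A := by
    intro A
    rw [hE]
    constructor
    · intro h
      obtain ⟨h3, h4⟩ := Matroid.comap_indep_iff.1 h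
      exact ((hφ _ h3.subset_ground).1 h3).comp_of_image h4
    · intro h
      refine Matroid.comap_indep_iff.2 ⟨?_, ?_⟩
      · rw [hφ _ (by rintro _ ⟨a, _, rfl⟩; exact hgE a)]
        exact h.image_of_comp g φ
      · have h3 : Set.InjOn (φ ∘ g) A := h.injOn
        exact h3.of_comp
  have hle : ∀ A : Finset (Fin r ⊕ Fin r), LinearIndepOn K E (A : Set (Fin r ⊕ Fin r)) →
      A.card ≤ r := by
    intro A hA
    have := LinearIndependent.fintype_card_le_finrank (show LinearIndependent K
      (fun a : (A : Set (Fin r ⊕ Fin r)) => E a) from hA)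
    simpa using this
  have hbs : ∀ A : Finset (Fin r ⊕ Fin r), A.card = r →
      LinearIndepOn K E (A : Set (Fin r ⊕ Fin r)) → N.IsBase (A : Set (Fin r ⊕ Fin r)) := by
    intro A hA hi
    obtain ⟨D, hD, hAD⟩ := ((hNi _).2 hi).exists_isBase_superset
    have h3 : (D.toFinset : Set (Fin r ⊕ Fin r)) = D := by simp
    have h4 := hle D.toFinset (by rw [h3]; exact (hNi _).1 hD.indep)
    have h5 : A = D.toFinset := eq_of_subset_of_card_le (by
      intro x hx
      rw [Set.mem_toFinset]
      exact hAD hx) (by rw [hA]; exact h4)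
    rw [h5, h3]
    exact hD
  have hSi : LinearIndepOn K E (S : Set (Fin r ⊕ Fin r)) := (H68Rg.indep_of_det
    (H68Rg.det_first h1 h2)).1
  have hSB := hbs S hSc hSi
  have hN1 : ∀ D, N.IsBase D → D.ncard = r := by
    intro D hD
    rw [hD.ncard_eq_ncard_of_isBase hSB, Set.ncard_coe_finset, hSc]
  have hN2 : ∀ D, N✶.IsBase D → D.ncard = r := by
    intro D hD
    have h3 := hN1 _ (Matroid.dual_isBase_iff'.1 hD).1
    rw [hNE, ← Set.compl_eq_univ_sdiff] at h3
    have h4 := Set.ncard_add_ncard_compl D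
    rw [Nat.card_eq_fintype_card, Fintype.card_sum, Fintype.card_fin] at h4
    omega
  have hF : ∀ A : Finset (Fin r ⊕ Fin r), F A ≠ 0 ↔ N.IsBase (A : Set (Fin r ⊕ Fin r)) ∧
      N✶.IsBase (A : Set (Fin r ⊕ Fin r)) := by
    intro A
    have e : N✶.IsBase (A : Set (Fin r ⊕ Fin r)) ↔
        N.IsBase ((Aᶜ : Finset (Fin r ⊕ Fin r)) : Set (Fin r ⊕ Fin r)) := by
      rw [Matroid.dual_isBase_iff', hNE, ← Set.compl_eq_univ_sdiff, coe_compl]
      exact ⟨fun h => h.1, fun h => ⟨h, Set.subset_univ _⟩⟩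
    rw [e]
    constructor
    · intro h
      obtain ⟨h3, h4⟩ := H68Rg.indep_of_det h
      obtain ⟨h5, h6⟩ := H68Rg.card_of_det h
      exact ⟨hbs A h5 h3, hbs Aᶜ h6 h4⟩
    · rintro ⟨h3, h4⟩
      exact det_ne_zero ((hNi _).1 h3.indep) ((hNi _).1 h4.indep)
  -- nonvanishing gives bases
  have hbase : ∀ A, F A ≠ 0 → (M.IsBase (g '' (A : Set (Fin r ⊕ Fin r))) ∧
      Set.InjOn g (A : Set (Fin r ⊕ Fin r))) := by
    intro A hA
    obtain ⟨h3, h4⟩ := Matroid.comap_indep_iff.1 ((hF A).1 hA).1.indep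
    refine ⟨?_, h4⟩
    obtain ⟨D, hD, hAD⟩ := h3.exists_isBase_superset
    have h5 : D.ncard = r := hD.ncard_eq_ncard_of_isBase hB
    have h6 : (g '' (A : Set (Fin r ⊕ Fin r))).ncard = r := by
      rw [h4.ncard_image]
      exact hN1 _ ((hF A).1 hA).1
    have h7 : D.Finite := by
      rw [← Set.encard_lt_top_iff, hD.encard_eq_encard_of_isBase hB, Set.encard_lt_top_iff]
      exact hfin
    have h8 := Set.eq_of_subset_of_ncard_le hAD (by rw [h5, h6]) h7
    rw [h8]
    exact hD
  have hFc : ∀ A, F A ≠ 0 → F Aᶜ ≠ 0 := by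
    intro A hA
    obtain ⟨h3, h4⟩ := H68Rg.indep_of_det hA
    exact det_ne_zero h4 (by rw [compl_compl]; exact h3)
  -- the theorem for finite sets
  obtain ⟨A, hXA, hdis, hp, hFA⟩ := core N N✶ hNE (by rw [Matroid.dual_ground, hNE]) r hN1 hN2 F hF
    (fun C hC => htot E C hC)
    (fun A => Relation.ReflTransGen (fun P Q => TwoExchange M P Q ∧ X ⊆ Q.1) (B, B')
      (g '' (A : Set (Fin r ⊕ Fin r)),
        g '' ((Aᶜ : Finset (Fin r ⊕ Fin r)) : Set (Fin r ⊕ Fin r)))) XS
    (by
      intro A A' _ hXA' hPA hFA hFA' hAA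
      refine hPA.tail ⟨⟨⟨g '' ((A \ A' : Finset (Fin r ⊕ Fin r)) : Set (Fin r ⊕ Fin r)),
        Set.image_mono (coe_subset.2 sdiff_subset),
        g '' ((A' \ A : Finset (Fin r ⊕ Fin r)) : Set (Fin r ⊕ Fin r)),
        Set.image_mono (coe_subset.2 fun x hx => mem_compl.2 (mem_sdiff.1 hx).2), ?_, ?_, ?_, ?_⟩,
        (hbase _ hFA').1, (hbase _ (hFc _ hFA')).1⟩, ?_⟩
      · have i1 := (hbase _ hFA).2
        have i2 := (hbase _ hFA').2
        rw [(i1.mono (coe_subset.2 sdiff_subset)).encard_image,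
          (i2.mono (coe_subset.2 sdiff_subset)).encard_image, Set.encard_coe_eq_coe_finsetCard,
          Set.encard_coe_eq_coe_finsetCard]
        have j1 := card_sdiff_add_card_inter A A'
        have j2 := card_sdiff_add_card_inter A' A
        rw [inter_comm] at j2
        have j3 := (H68Rg.card_of_det hFA).1
        have j4 := (H68Rg.card_of_det hFA').1
        have j5 : (A \ A').card = (A' \ A).card := by omega
        rw [j5]
      · have i1 := (hbase _ hFA).2
        rw [(i1.mono (coe_subset.2 sdiff_subset)).encard_image, Set.encard_coe_eq_coe_finsetCard]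
        have j1 := card_sdiff_add_card_inter A A'
        have j3 := (H68Rg.card_of_det hFA).1
        have j5 : (A \ A').card ≤ 2 := by omega
        exact_mod_cast j5
      · have i1 := (hbase _ hFA).2
        change g '' (A' : Set (Fin r ⊕ Fin r)) = g '' (A : Set (Fin r ⊕ Fin r)) \ _ ∪ _
        rw [← Set.InjOn.image_sdiff_subset i1 (coe_subset.2 sdiff_subset), ← Set.image_union,
          ← coe_sdiff, ← coe_union]
        congr 2
        ext x
        simp only [mem_union, mem_sdiff]
        tauto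
      · have i1 := (hbase _ (hFc _ hFA)).2
        change g '' ((A'ᶜ : Finset (Fin r ⊕ Fin r)) : Set (Fin r ⊕ Fin r)) =
          g '' ((Aᶜ : Finset (Fin r ⊕ Fin r)) : Set (Fin r ⊕ Fin r)) \ _ ∪ _
        rw [← Set.InjOn.image_sdiff_subset i1 (coe_subset.2 fun x hx =>
          mem_compl.2 (mem_sdiff.1 hx).2), ← Set.image_union, ← coe_sdiff, ← coe_union]
        congr 2
        ext x
        simp only [mem_union, mem_sdiff, mem_compl]
        tauto
      · change X ⊆ g '' _
        conv_lhs => rw [← gXS]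
        exact Set.image_mono (coe_subset.2 hXA')) S hXS (by rw [gS, gSc]) (H68Rg.det_first h1 h2)
  have hcard := H68Rg.card_of_det hFA
  have hA : A ∩ S = XS := by
    ext x
    constructor
    · intro hx
      by_contra hc
      exact Finset.disjoint_left.1 hdis (mem_inter.1 hx).1 (mem_sdiff.2 ⟨(mem_inter.1 hx).2, hc⟩)
    · exact fun hx => mem_inter.2 ⟨hXA hx, hXS hx⟩
  -- the sets
  let YT : Finset (Fin r ⊕ Fin r) := Aᶜ \ S
  have hY1 : g '' (YT : Set (Fin r ⊕ Fin r)) ⊆ B' := by
    rw [← gSc]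
    refine Set.image_mono ?_
    intro a ha
    simp only [YT, coe_sdiff, coe_compl, Set.mem_sdiff, Set.mem_compl_iff, mem_coe] at ha ⊢
    exact ha.2
  have hYA : YT ⊆ Aᶜ := sdiff_subset
  have hYc : YT.card = XS.card := by
    have k1 : (Aᶜ ∩ S).card + YT.card = Aᶜ.card := card_inter_add_card_sdiff _ _
    have k2 : Aᶜ ∩ S = S \ XS := by
      rw [← hA]
      ext x
      simp only [mem_inter, mem_compl, mem_sdiff]
      tauto
    have k3 := card_le_card hXS
    rw [k2, card_sdiff_of_subset hXS, hcard.2, hSc] at k1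
    rw [hSc] at k3
    omega
  have hinj2 := (hbase _ (hFc _ hFA)).2
  refine ⟨g '' (YT : Set (Fin r ⊕ Fin r)), hY1, ?_, ?_⟩
  · rw [(hinj2.mono (coe_subset.2 hYA)).ncard_image, Set.ncard_coe_finset, hYc, hXc]
  · have hginT : Set.InjOn g ((Sᶜ : Finset (Fin r ⊕ Fin r)) : Set (Fin r ⊕ Fin r)) := by
      intro a ha c hc hac
      rcases a with i | i
      · simp [S] at ha
      · rcases c with j | j
        · simp [S] at hc
        · exact congrArg _ (hb' hac)
    have e1 : g '' (A : Set (Fin r ⊕ Fin r)) = X ∪ (B' \ g '' (YT : Set (Fin r ⊕ Fin r))) := by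
      have k1 : (A : Set (Fin r ⊕ Fin r)) = (XS : Set (Fin r ⊕ Fin r)) ∪
          (((Sᶜ : Finset (Fin r ⊕ Fin r)) : Set (Fin r ⊕ Fin r)) \
            (YT : Set (Fin r ⊕ Fin r))) := by
        rw [← coe_sdiff, ← coe_union]
        congr 1
        ext x
        simp only [YT, mem_union, mem_sdiff, mem_compl, ← hA, mem_inter]
        tauto
      rw [k1, Set.image_union, gXS, Set.InjOn.image_sdiff_subset hginT, gSc]
      intro a ha
      simp only [YT, coe_sdiff, coe_compl, Set.mem_sdiff, Set.mem_compl_iff, mem_coe] at ha ⊢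
      exact ha.2
    have e2 : g '' ((Aᶜ : Finset (Fin r ⊕ Fin r)) : Set (Fin r ⊕ Fin r)) =
        (B \ X) ∪ g '' (YT : Set (Fin r ⊕ Fin r)) := by
      have k1 : ((Aᶜ : Finset (Fin r ⊕ Fin r)) : Set (Fin r ⊕ Fin r)) =
          ((S : Set (Fin r ⊕ Fin r)) \ (XS : Set (Fin r ⊕ Fin r))) ∪
            (YT : Set (Fin r ⊕ Fin r)) := by
        rw [← coe_sdiff, ← coe_union]
        congr 1
        ext x
        simp only [YT, mem_union, mem_sdiff, mem_compl, ← hA, mem_inter]
        tauto
      rw [k1, Set.image_union, Set.InjOn.image_sdiff_subset hginS (coe_subset.2 hXS), gS, gXS]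
    rw [← e1, ← e2]
    exact hp

end Pool.Agent.H47Two
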